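import Mathlib

namespace Pool.Agent.Results.MP_5ce401_an.NoConstant

open Filter Topology Real Set intervalIntegral

/-- `x` solves the delay equation on `[t₀, ∞)` with continuous bounded initial function -/
def IsSol (a h : ℝ → ℝ) (t₀ : ℝ) (x : ℝ → ℝ) : Prop :=
  Continuous x ∧ (∃ B, ∀ t ≤ t₀, |x t| ≤ B) ∧
    ∀ t ≥ t₀, HasDerivWithinAt x (-(a t * x (h t))) (Ici t₀) t

/-- asymptotic stability -/
def AS (a h : ℝ → ℝ) (t₀ : ℝ) : Prop :=
  (∀ ε > 0, ∃ δ > 0, ∀ x, IsSol a h t₀ x → (∀ t ≤ t₀, |x t| ≤ δ) → ∀ t ≥ t₀, |x t| < ε) ∧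
    ∀ x, IsSol a h t₀ x → Tendsto x atTop (𝓝 0)

lemma pt {u : ℝ} (h : |u| ≤ 1 / 2) : -u + 2 / 3 * u ^ 2 ≤ -u / (1 + u) ∧ -u / (1 + u) ≤ -u + 2 * u ^ 2 := by
  have := abs_le.1 h
  have h1 : 0 < 1 + u := by linarith
  rw [le_div_iff₀ h1, div_le_iff₀ h1]
  constructor <;> nlinarith [sq_nonneg u]

lemma est {δ τ : ℝ} (h0 : 0 < δ) (h1 : δ ≤ 1 / 2) (hτ : 0 ≤ τ) (t : ℝ) :
    δ ^ 2 * (τ - 2) / 3 - 2 * δ ≤ ∫ s in (t - τ)..t, -(δ * cos s) / (1 + δ * cos s) ∧
    ∫ s in (t - τ)..t, -(δ * cos s) / (1 + δ * cos s) ≤ 2 * δ ^ 2 * τ + 2 * δ := by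
  have hu (s : ℝ) : |δ * cos s| ≤ 1 / 2 := by
    rw [abs_mul, abs_of_pos h0]
    nlinarith [abs_cos_le_one s]
  have hc : Continuous fun s => -(δ * cos s) / (1 + δ * cos s) :=
    Continuous.div (by fun_prop) (by fun_prop) fun s => by linarith [(abs_le.1 (hu s)).1]
  have s1 := abs_le.1 (abs_sin_le_one t)
  have s2 := abs_le.1 (abs_sin_le_one (t - τ))
  constructor
  · refine le_trans ?_ (integral_mono_on (f := fun s => -(δ * cos s) + 2 / 3 * (δ * cos s) ^ 2)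
      (by linarith) (Continuous.intervalIntegrable (by fun_prop) _ _) (hc.intervalIntegrable _ _)
      fun s _ => (pt (hu s)).1)
    rw [integral_add (Continuous.intervalIntegrable (by fun_prop) _ _)
      (Continuous.intervalIntegrable (by fun_prop) _ _)]
    simp only [mul_pow, integral_neg, integral_const_mul, integral_cos, integral_cos_sq]
    have c1 : -1 ≤ cos t * sin t := by nlinarith [sin_sq_add_cos_sq t, sq_nonneg (sin t + cos t)]
    have c2 : cos (t - τ) * sin (t - τ) ≤ 1 := by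
      nlinarith [sin_sq_add_cos_sq (t - τ), sq_nonneg (sin (t - τ) - cos (t - τ))]
    nlinarith [sq_nonneg δ]
  · refine le_trans (integral_mono_on (g := fun s => -(δ * cos s) + 2 * δ ^ 2)
      (by linarith) (hc.intervalIntegrable _ _) (Continuous.intervalIntegrable (by fun_prop) _ _)
      fun s _ => (pt (hu s)).2.trans ?_) ?_
    · nlinarith [cos_sq_le_one s, sq_nonneg δ]
    rw [integral_add (Continuous.intervalIntegrable (by fun_prop) _ _)
      (Continuous.intervalIntegrable (by fun_prop) _ _)]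
    simp only [integral_neg, integral_const_mul, integral_cos, integral_const, smul_eq_mul]
    nlinarith

theorem result (M : ℝ) (hM : 0 < M) (t₀ : ℝ) : ∃ a h : ℝ → ℝ, Continuous a ∧ Continuous h ∧
    (∃ A τ : ℝ, ∀ t, |a t| ≤ A ∧ 0 ≤ t - h t ∧ t - h t ≤ τ) ∧ Tendsto h atTop atTop ∧
    (∃ c C : ℝ, 0 < c ∧ C < M ∧ ∀ t, c ≤ ∫ s in h t..t, a s ∧ ∫ s in h t..t, a s ≤ C) ∧
    ¬ AS a h t₀ := by
  set δ := min (1 / 2) (M / 40) with hδ
  have h0 : 0 < δ := by positivity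
  have h1 : δ ≤ 1 / 2 := min_le_left _ _
  have h2 : δ ≤ M / 40 := min_le_right _ _
  set k := ⌈(9 / δ + 4) / (2 * π)⌉₊
  have h3 : (9 / δ + 4) / (2 * π) ≤ k := Nat.le_ceil _
  have h4 : (k : ℝ) < (9 / δ + 4) / (2 * π) + 1 := Nat.ceil_lt_add_one (by positivity)
  rw [div_le_iff₀ (by positivity)] at h3
  rw [div_add_one (by positivity), lt_div_iff₀ (by positivity)] at h4
  set τ := k * (2 * π) - π / 2 with hτ
  have p1 := pi_gt_three
  have p2 := pi_le_four
  have h5 : 9 / δ + 2 ≤ τ := by linarith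
  have h6 : τ ≤ 9 / δ + 10 := by linarith
  have h7 : δ * (9 / δ) = 9 := by field_simp
  have h8 : 0 ≤ τ := le_trans (by positivity) h5
  have hu (s : ℝ) : |δ * cos s| ≤ 1 / 2 := by
    rw [abs_mul, abs_of_pos h0]
    nlinarith [abs_cos_le_one s]
  have hp (s : ℝ) : 0 < 1 + δ * cos s := by linarith [(abs_le.1 (hu s)).1]
  have hv (s : ℝ) : |δ * sin s| ≤ 1 / 2 := by
    rw [abs_mul, abs_of_pos h0]
    nlinarith [abs_sin_le_one s]
  refine ⟨fun s => -(δ * cos s) / (1 + δ * cos s), fun t => t - τ,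
    Continuous.div (by fun_prop) (by fun_prop) fun s => (hp s).ne', by fun_prop,
    ⟨1, τ, fun t => ⟨?_, by linarith, by linarith⟩⟩, tendsto_atTop_add_const_right _ _ tendsto_id,
    ⟨δ, 30 * δ, h0, by linarith, fun t => ⟨le_trans ?_ (est h0 h1 h8 t).1,
      (est h0 h1 h8 t).2.trans ?_⟩⟩, fun h => ?_⟩
  · rw [abs_div, abs_neg, abs_of_pos (hp t), div_le_one (hp t)]
    linarith [(abs_le.1 (hu t)).1, hu t]
  · nlinarith [mul_le_mul_of_nonneg_left h5 (sq_nonneg δ)]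
  · nlinarith [mul_le_mul_of_nonneg_left h6 (sq_nonneg δ)]
  · have := h.2 (fun t => 1 + δ * sin t) ⟨by fun_prop, ⟨2, fun t _ => abs_le.2
      ⟨by linarith [(abs_le.1 (hv t)).1], by linarith [(abs_le.1 (hv t)).2]⟩⟩, fun t _ => ?_⟩
    · obtain ⟨t, ht⟩ := (this.eventually (gt_mem_nhds (by norm_num : (0 : ℝ) < 1 / 2))).exists
      linarith [(abs_le.1 (hv t)).1]
    · have e : sin (t - τ) = cos t := by
        rw [hτ, show t - (k * (2 * π) - π / 2) = t + π / 2 - k * (2 * π) by ring,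
          sin_sub_nat_mul_two_pi, sin_add_pi_div_two]
      refine (((hasDerivAt_sin t).const_mul δ).const_add 1).hasDerivWithinAt.congr_deriv ?_
      simp only [e]
      field_simp [(hp t).ne']

end Pool.Agent.Results.MP_5ce401_an.NoConstant
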